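import Mathlib

namespace Pool.Agent.H.MP_b2e8e7_an

open Filter Topology Finset
open scoped ENNReal

abbrev S : Type := {F : Finset ℕ // ∀ i ∈ F, F.card ≤ i}
abbrev L : Type := lp (fun _ : S => ℝ) ∞

def X : Type := L
noncomputable instance : NormedAddCommGroup X := inferInstanceAs (NormedAddCommGroup L)
noncomputable instance : NormedSpace ℝ X := inferInstanceAs (NormedSpace ℝ L)
instance : CompleteSpace X := inferInstanceAs (CompleteSpace L)

noncomputable def ev (F : S) : X →L[ℝ] ℝ := lp.evalCLM ℝ (fun _ : S => ℝ) ∞ F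

lemma nle (y : X) {r : ℝ} (hr : 0 ≤ r) (h : ∀ F, |ev F y| ≤ r) : ‖y‖ ≤ r :=
  lp.norm_le_of_forall_le (f := (y : L)) hr h

lemma ev_le (F : S) : ‖ev F‖ ≤ 1 := (ev F).opNorm_le_bound zero_le_one fun y => by
  rw [one_mul]; exact lp.norm_apply_le_norm (by simp) (y : L) F

noncomputable def x (i : ℕ) : X :=
  (⟨fun F => if i ∈ F.1 then 1 else 0, memℓp_infty ⟨1, by
    rintro _ ⟨F, rfl⟩; dsimp only; split_ifs <;> simp⟩⟩ : L)

lemma ev_x (F : S) (i : ℕ) : ev F (x i) = if i ∈ F.1 then 1 else 0 := rfl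

lemma x_le (i : ℕ) : ‖x i‖ ≤ 1 := nle _ zero_le_one fun F => by rw [ev_x]; split_ifs <;> simp

lemma avg (φ : X →L[ℝ] ℝ) (δ : ℝ) (h : {i | δ ≤ φ (x i)}.Infinite) (N : ℕ) :
    ∀ ε > 0, ∃ y : X, N * δ ≤ φ y ∧ ∀ F, 0 ≤ ev F y ∧ ev F y ≤ ε * F.1.card ∧ ev F y ≤ 2 := by
  induction N with
  | zero => exact fun ε hε => ⟨0, by simp, fun F => by simp; positivity⟩
  | succ N ih =>
    intro ε hε
    obtain ⟨n, hn⟩ := exists_nat_one_div_lt (half_pos hε)
    obtain ⟨B, hB, hc⟩ := h.exists_subset_card_eq (n + 1)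
    set m := B.sup id with hm
    obtain ⟨y, h1, h2⟩ := ih (min (ε / 2) (1 / (m + 1))) (lt_min (half_pos hε) (by positivity))
    have hp : (0:ℝ) < 1 / (n + 1) := by positivity
    have e : ∀ F : S, ev F ((1 / (n + 1) : ℝ) • ∑ i ∈ B, x i) = 1 / (n + 1) * (B ∩ F.1).card := by
      intro F
      rw [map_smul, map_sum]
      simp only [ev_x, smul_eq_mul, sum_boole, filter_mem_eq_inter]
    refine ⟨(1 / (n + 1) : ℝ) • ∑ i ∈ B, x i + y, ?_, fun F => ?_⟩
    · rw [map_add, map_smul, map_sum, smul_eq_mul]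
      have := card_nsmul_le_sum B (fun i => φ (x i)) δ fun i hi => hB hi
      rw [hc, nsmul_eq_mul] at this
      have h3 := mul_le_mul_of_nonneg_left this hp.le
      rw [← mul_assoc, Nat.cast_succ, one_div_mul_cancel (by positivity), one_mul] at h3
      push_cast
      linarith
    · obtain ⟨a1, a2, a3⟩ := h2 F
      rw [map_add, e]
      have c0 : (0:ℝ) ≤ F.1.card := Nat.cast_nonneg _
      have c1 : ((B ∩ F.1).card : ℝ) ≤ F.1.card := Nat.cast_le.2 (card_le_card inter_subset_right)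
      have c2 : ((B ∩ F.1).card : ℝ) ≤ n + 1 := by
        exact_mod_cast (card_le_card inter_subset_left).trans hc.le
      have c3 := mul_le_mul_of_nonneg_right (min_le_left (ε / 2) (1 / (m + 1))) c0
      have c4 := mul_le_mul_of_nonneg_right (min_le_right (ε / 2) (1 / (m + 1))) c0
      refine ⟨by positivity, ?_, ?_⟩
      · nlinarith [mul_le_mul hn.le c1 (Nat.cast_nonneg _) (half_pos hε).le]
      · rcases (B ∩ F.1).eq_empty_or_nonempty with c | ⟨i, hi⟩
        · rw [c]; simpa using a3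
        · have c5 : (F.1.card : ℝ) ≤ m + 1 := by
            have := (F.2 i (mem_inter.1 hi).2).trans (le_sup (f := id) (mem_inter.1 hi).1)
            exact_mod_cast this.trans (Nat.le_succ _)
          have c6 := mul_le_mul_of_nonneg_left c2 hp.le
          have c7 := mul_le_mul_of_nonneg_left c5 (show (0:ℝ) ≤ 1 / (m + 1) by positivity)
          rw [one_div_mul_cancel (by positivity)] at c6 c7
          linarith

lemma fin (φ : X →L[ℝ] ℝ) (δ : ℝ) (hδ : 0 < δ) : {i | δ ≤ φ (x i)}.Finite := by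
  by_contra h
  obtain ⟨N, hN⟩ := exists_nat_gt (‖φ‖ * 2 / δ)
  obtain ⟨y, h1, h2⟩ := avg φ δ h N 1 one_pos
  have h3 : ‖y‖ ≤ 2 := nle _ (by norm_num) fun F => by rw [abs_of_nonneg (h2 F).1]; exact (h2 F).2.2
  have h4 := (le_abs_self _).trans ((φ.le_opNorm y).trans
    (mul_le_mul_of_nonneg_left h3 (norm_nonneg _)))
  rw [div_lt_iff₀ hδ] at hN
  linarith

lemma weak (φ : X →L[ℝ] ℝ) : Tendsto (fun i => φ (x i)) atTop (𝓝 (φ 0)) := by
  rw [map_zero, ← Nat.cofinite_eq_atTop, Metric.tendsto_nhds]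
  intro ε hε
  rw [eventually_cofinite]
  refine ((fin φ ε hε).union (fin (-φ) ε hε)).subset fun i hi => ?_
  simp only [dist_zero_right, Real.norm_eq_abs, not_lt, Set.mem_ofPred_eq] at hi
  rcases le_abs'.1 hi with c | c
  · exact Or.inr (by simp only [Set.mem_ofPred_eq, neg_apply]; linarith)
  · exact Or.inl c

lemma mean (u : ℕ → X) (hu : ∀ k, u k ∈ Set.range x) (k : ℕ) (F : S) :
    0 ≤ ev F (((k : ℝ) + 1)⁻¹ • ∑ i ∈ range (k + 1), u i) ∧
      ev F (((k : ℝ) + 1)⁻¹ • ∑ i ∈ range (k + 1), u i) ≤ 1 := by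
  have h : ∀ i, 0 ≤ ev F (u i) ∧ ev F (u i) ≤ 1 := fun i => by
    obtain ⟨j, hj⟩ := hu i
    rw [← hj, ev_x]; split_ifs <;> simp
  rw [map_smul, map_sum, smul_eq_mul]
  refine ⟨mul_nonneg (by positivity) (sum_nonneg fun i _ => (h i).1), ?_⟩
  rw [inv_mul_le_iff₀ (by positivity), mul_one]
  simpa using sum_le_card_nsmul (range (k + 1)) _ 1 fun i _ => (h i).2

lemma mean_le (u : ℕ → X) (hu : ∀ k, u k ∈ Set.range x) (k l : ℕ) :
    ‖((k : ℝ) + 1)⁻¹ • ∑ i ∈ range (k + 1), u i - ((l : ℝ) + 1)⁻¹ • ∑ i ∈ range (l + 1), u i‖ ≤ 1 :=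
  nle _ zero_le_one fun F => by
    have h1 := mean u hu k F
    have h2 := mean u hu l F
    rw [map_sub, abs_le]
    constructor <;> linarith [h1.1, h1.2, h2.1, h2.2]

lemma big (s : ℕ → ℕ) (hs : StrictMono s) (ε : ℝ) (hε : ε < 1) (n : ℕ) :
    ∃ f : X →L[ℝ] ℝ, ‖f‖ ≤ 1 ∧ (n : ℕ∞) < {k | ε < |f (x (s k) - 0)|}.encard := by
  refine ⟨ev ⟨(Ico (n + 1) (2 * n + 2)).image s, fun i hi => ?_⟩, ev_le _, ?_⟩
  · obtain ⟨k, hk, rfl⟩ := mem_image.1 hi
    refine card_image_le.trans (le_trans ?_ (hs.id_le k))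
    have := (mem_Ico.1 hk).1
    simp only [Nat.card_Ico, id]; omega
  · refine lt_of_lt_of_le ?_ (Set.encard_le_encard (s := (Ico (n + 1) (2 * n + 2) : Finset ℕ))
      fun k hk => ?_)
    · rw [Set.encard_coe_eq_coe_finsetCard, Nat.card_Ico]
      exact_mod_cast (by omega : n < 2 * n + 2 - (n + 1))
    · show ε < _
      rw [sub_zero, ev_x, if_pos (mem_image_of_mem s hk)]
      simpa using hε

end Pool.Agent.H.MP_b2e8e7_an
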